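import Pool.Agent.X216.CN.Strip
import Pool.Agent.X216.CN.Small
import Pool.Agent.X216.CN.Lower

/-!
# Bounds for the essential self-adjointness threshold `c_n`

For every `n ≥ 1` the threshold `c_n` of the file (the set of real `c` for which exactly `n` of
the `2n` roots of `D_{2n}(·;c)` have real part `> -1/2` is `[c_n,∞)`) exists, is unique and
satisfies `2n²/π < c_n^{1/(2n)} < n / sin(π/(2n))`.
-/

open Finset Polynomial

namespace Pool.Agent.Results.MP_74ce82_an.BothBounds

open Pool.Agent.X216.CN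

/-- The polynomial `D_{2n}(z;c) = ∏_{j=1}^{2n} (z-(j-1)) + (-1)^n c`. -/
noncomputable def D (n : ℕ) (c : ℝ) : Polynomial ℂ :=
  (∏ j ∈ Finset.Icc 1 (2 * n), (X - C ((j : ℂ) - 1))) + C ((-1) ^ n * (c : ℂ))

open Classical in
/-- The number of roots of `D_{2n}(·;c)`, counted with multiplicity, with real part `> -1/2`. -/
noncomputable def rightRoots (n : ℕ) (c : ℝ) : ℕ :=
  Multiset.card ((D n c).roots.filter (fun z => -1 / 2 < z.re))

/-- `c₀` is the threshold `c_n`: it is positive, and exactly `n` of the `2n` roots of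
`D_{2n}(·;c)` have real part `> -1/2` if and only if `c ≥ c₀`. -/
def IsThreshold (n : ℕ) (c₀ : ℝ) : Prop :=
  0 < c₀ ∧ ∀ c : ℝ, rightRoots n c = n ↔ c₀ ≤ c

lemma prod_eq (n : ℕ) (z : ℂ) :
    ∏ j ∈ Finset.Icc 1 (2 * n), (z - ((j : ℂ) - 1)) = (-1) ^ n * Q n (z - ((n : ℂ) - 1 / 2)) := by
  have h0 : ∏ j ∈ Finset.Icc 1 (2 * n), (z - ((j : ℂ) - 1)) =
      ∏ j ∈ range (2 * n), (z - (j : ℂ)) := by
    rw [← Finset.Ico_add_one_right_eq_Icc, Finset.prod_Ico_eq_prod_range]
    apply prod_congr rfl
    intro j _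
    push_cast
    ring
  rw [h0, two_mul, prod_range_add, ← prod_range_reflect]
  unfold Q
  have : ((-1 : ℂ)) ^ n = ∏ k ∈ range n, (-1 : ℂ) := by simp
  rw [this, ← prod_mul_distrib, ← prod_mul_distrib]
  apply prod_congr rfl
  intro k hk
  rw [mem_range] at hk
  have hc : ((n - 1 - k : ℕ) : ℂ) = (n : ℂ) - 1 - k := by
    have : ((n - 1 - k : ℕ) : ℂ) + 1 + k = n := by
      have : (n - 1 - k) + 1 + k = n := by omega
      exact_mod_cast this
    linear_combination this
  rw [hc]
  push_cast
  ring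

lemma D_eval (n : ℕ) (c : ℝ) (z : ℂ) :
    (D n c).eval z = (-1) ^ n * (Q n (z - ((n : ℂ) - 1 / 2)) + c) := by
  unfold D
  rw [eval_add, eval_prod, eval_C]
  simp only [eval_sub, eval_X, eval_C]
  rw [prod_eq]
  ring

lemma prod_monic (n : ℕ) :
    (∏ j ∈ Finset.Icc 1 (2 * n), (X - C ((j : ℂ) - 1)) : Polynomial ℂ).Monic :=
  monic_prod_of_monic _ _ (fun _ _ => monic_X_sub_C _)

lemma prod_natDegree (n : ℕ) :
    (∏ j ∈ Finset.Icc 1 (2 * n), (X - C ((j : ℂ) - 1)) : Polynomial ℂ).natDegree = 2 * n := by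
  rw [natDegree_prod_of_monic _ _ (fun _ _ => monic_X_sub_C _),
    sum_congr rfl (fun _ _ => natDegree_X_sub_C _)]
  simp

lemma C_degree_lt {n : ℕ} (hn : 1 ≤ n) (c : ℂ) :
    (C c).degree < (∏ j ∈ Finset.Icc 1 (2 * n), (X - C ((j : ℂ) - 1)) : Polynomial ℂ).degree := by
  rw [degree_eq_natDegree (prod_monic n).ne_zero, prod_natDegree]
  refine lt_of_le_of_lt degree_C_le ?_
  exact_mod_cast (by omega : 0 < 2 * n)

lemma D_monic {n : ℕ} (hn : 1 ≤ n) (c : ℝ) : (D n c).Monic :=
  (prod_monic n).add_of_left (C_degree_lt hn _)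

lemma D_natDegree {n : ℕ} (hn : 1 ≤ n) (c : ℝ) : (D n c).natDegree = 2 * n := by
  unfold D
  rw [natDegree_add_eq_left_of_degree_lt (C_degree_lt hn _), prod_natDegree]

lemma D_card {n : ℕ} (hn : 1 ≤ n) (c : ℝ) : Multiset.card (D n c).roots = 2 * n := by
  rw [← D_natDegree hn c]
  exact splits_iff_card_roots.1 (IsAlgClosed.splits _)

/-- The roots are symmetric. -/
lemma roots_symm {n : ℕ} (hn : 1 ≤ n) (c : ℝ) :
    (D n c).roots.map (fun z => (2 * (n : ℂ) - 1) - z) = (D n c).roots := by
  have hsym : (D n c).comp (C (2 * (n : ℂ) - 1) - X) = D n c := by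
    apply Polynomial.funext
    intro z
    rw [eval_comp, D_eval, D_eval]
    simp only [eval_sub, eval_C, eval_X]
    have : 2 * (n : ℂ) - 1 - z - ((n : ℂ) - 1 / 2) = -(z - ((n : ℂ) - 1 / 2)) := by ring
    rw [this, Q_neg]
  have hprod : D n c = ((D n c).roots.map (fun r => X - C r)).prod :=
    (IsAlgClosed.splits (D n c)).eq_prod_roots_of_monic (D_monic hn c)
  have h2 : D n c = (((D n c).roots.map (fun z => (2 * (n : ℂ) - 1) - z)).map
      (fun r => X - C r)).prod := by
    conv_lhs => rw [← hsym, hprod]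
    rw [multiset_prod_comp, Multiset.map_map, Multiset.map_map]
    have h3 : ∀ R : Multiset ℂ, (R.map ((fun p : Polynomial ℂ => p.comp (C (2 * (n : ℂ) - 1) - X)) ∘
        fun r => X - C r)).prod = (-1) ^ (Multiset.card R) *
        (R.map ((fun r => X - C r) ∘ fun z => (2 * (n : ℂ) - 1) - z)).prod := by
      intro R
      induction R using Multiset.induction with
      | empty => simp
      | cons a R ih =>
        rw [Multiset.map_cons, Multiset.prod_cons, ih, Multiset.map_cons, Multiset.prod_cons,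
          Multiset.card_cons, pow_succ]
        simp only [Function.comp, sub_comp, X_comp, C_comp, C_sub]
        ring
    rw [h3, D_card hn, pow_mul]
    simp
  conv_rhs => rw [h2]
  rw [roots_multiset_prod_X_sub_C]

lemma rightRoots_iff {n : ℕ} (hn : 1 ≤ n) (c : ℝ) : rightRoots n c = n ↔ c ∉ T n := by
  classical
  have hn1 : (1 : ℝ) ≤ n := by exact_mod_cast hn
  set R := (D n c).roots with hR
  have hcard : Multiset.card R = 2 * n := D_card hn c
  have h1 : Multiset.card (R.filter (fun z => -1 / 2 < z.re)) +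
      Multiset.card (R.filter (fun z => ¬ (-1 / 2 < z.re))) = 2 * n := by
    rw [← hcard, ← Multiset.card_add, Multiset.filter_add_not]
  have h2 : Multiset.card (R.filter (fun z => ¬ (-1 / 2 < z.re))) =
      Multiset.card (R.filter (fun z => 2 * (n : ℝ) - 1 / 2 ≤ z.re)) := by
    conv_lhs => rw [hR, ← roots_symm hn c, ← hR]
    rw [Multiset.filter_map, Multiset.card_map]
    congr 1
    apply Multiset.filter_congr
    intro z _
    simp only [Function.comp, Complex.sub_re, Complex.mul_re, Complex.one_re, Complex.natCast_re,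
      Complex.natCast_im, Complex.re_ofNat, Complex.im_ofNat, mul_zero, sub_zero]
    constructor
    · intro h; linarith
    · intro h h'; linarith
  have h3 : Multiset.card (R.filter (fun z => -1 / 2 < z.re)) =
      Multiset.card (R.filter (fun z => 2 * (n : ℝ) - 1 / 2 ≤ z.re)) +
      Multiset.card (R.filter (fun z => -1 / 2 < z.re ∧ z.re < 2 * (n : ℝ) - 1 / 2)) := by
    rw [← Multiset.card_add]
    congr 1
    have h4 := Multiset.filter_add_not (fun z : ℂ => 2 * (n : ℝ) - 1 / 2 ≤ z.re)
      (R.filter (fun z => -1 / 2 < z.re))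
    rw [Multiset.filter_filter, Multiset.filter_filter] at h4
    rw [← h4]
    congr 1
    · apply Multiset.filter_congr
      intro z _
      constructor
      · exact fun h => h.1
      · exact fun h => ⟨h, by linarith⟩
    · apply Multiset.filter_congr
      intro z _
      constructor
      · exact fun h => ⟨h.2, by push Not at h; exact h.1⟩
      · exact fun h => ⟨by push Not; exact h.2, h.1⟩
  have h5 : rightRoots n c = n ↔
      Multiset.card (R.filter (fun z => -1 / 2 < z.re ∧ z.re < 2 * (n : ℝ) - 1 / 2)) = 0 := by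
    unfold rightRoots
    rw [← hR]
    constructor <;> intro h <;> omega
  rw [h5, Multiset.card_eq_zero, Multiset.filter_eq_nil]
  constructor
  · rintro h ⟨s, hs, hQ⟩
    rw [abs_lt] at hs
    have hmem : s + ((n : ℂ) - 1 / 2) ∈ R := by
      rw [hR, mem_roots (D_monic hn c).ne_zero, IsRoot.def, D_eval]
      rw [add_sub_cancel_right, hQ]
      ring
    apply h _ hmem
    have : (s + ((n : ℂ) - 1 / 2)).re = s.re + (n - 1 / 2) := by
      simp
    rw [this]
    constructor <;> linarith [hs.1, hs.2]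
  · intro h z hz hz2
    apply h
    rw [hR, mem_roots (D_monic hn c).ne_zero, IsRoot.def, D_eval] at hz
    refine ⟨z - ((n : ℂ) - 1 / 2), ?_, ?_⟩
    · have : (z - ((n : ℂ) - 1 / 2)).re = z.re - (n - 1 / 2) := by
        simp
      rw [this, abs_lt]
      constructor <;> linarith [hz2.1, hz2.2]
    · have h6 : ((-1 : ℂ)) ^ n ≠ 0 := pow_ne_zero _ (by norm_num)
      rcases mul_eq_zero.1 hz with h7 | h7
      · exact absurd h7 h6
      · linear_combination h7

/-- relation between the modulus on the line and the means -/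
lemma Cc_eq {n : ℕ} (hn : 1 ≤ n) {τ : ℝ} (hτ : 0 < τ) :
    Cc n τ ^ (1 / (2 * (n : ℝ))) = τ * Real.exp (Lg n (1 / τ)) := by
  have hn' : (0 : ℝ) < n := by exact_mod_cast hn
  have h1 : Cc n τ = (τ * Real.exp (Lg n (1 / τ))) ^ (2 * n) := by
    rw [mul_pow, ← Real.exp_nat_mul]
    have h2 : ((2 * n : ℕ) : ℝ) * Lg n (1 / τ) =
        ∑ j ∈ range (2 * n), Real.log (1 + (x j * (1 / τ)) ^ 2) / 2 := by
      unfold Lg
      push_cast
      field_simp
    rw [h2, Real.exp_sum]
    have h3 : τ ^ (2 * n) = ∏ j ∈ range (2 * n), τ := by simp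
    rw [h3, ← prod_mul_distrib]
    unfold Cc
    apply prod_congr rfl
    intro j _
    have hp : 0 < 1 + (x j * (1 / τ)) ^ 2 := by positivity
    have h4 : Real.exp (Real.log (1 + (x j * (1 / τ)) ^ 2) / 2) =
        Real.sqrt (1 + (x j * (1 / τ)) ^ 2) := by
      rw [Real.sqrt_eq_rpow, Real.rpow_def_of_pos hp]
      congr 1
      ring
    rw [h4, show x j ^ 2 + τ ^ 2 = τ ^ 2 * (1 + (x j * (1 / τ)) ^ 2) by field_simp; ring,
      Real.sqrt_mul (by positivity), Real.sqrt_sq hτ.le]
  rw [h1, show 1 / (2 * (n : ℝ)) = ((2 * n : ℕ) : ℝ)⁻¹ by push_cast; rw [one_div],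
    Real.pow_rpow_inv_natCast (by positivity) (by omega)]

lemma m_eq {n : ℕ} (hn : 1 ≤ n) {τ : ℝ} (hτ : 0 < τ) (hA : A n τ = (n - 1) * Real.pi) :
    m n (1 / τ) = Real.pi / (2 * n) := by
  have hn' : (0 : ℝ) < n := by exact_mod_cast hn
  unfold m
  congr 1
  have h1 : ∀ j ∈ range (2 * n), Real.arctan (x j * (1 / τ)) =
      Real.pi / 2 - Real.arctan (τ / x j) := by
    intro j _
    rw [← Real.arctan_inv_of_pos (div_pos hτ (x_pos j)), inv_div]
    congr 1
    ring
  rw [sum_congr rfl h1, sum_sub_distrib, sum_const, card_range, nsmul_eq_mul]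
  unfold A at hA
  rw [hA]
  push_cast
  ring

theorem result : ∀ n : ℕ, 1 ≤ n → ∃ c₀ : ℝ, IsThreshold n c₀ ∧
    (∀ c₁ : ℝ, IsThreshold n c₁ → c₁ = c₀) ∧
    2 * (n : ℝ) ^ 2 / Real.pi < c₀ ^ (1 / (2 * (n : ℝ))) ∧
    c₀ ^ (1 / (2 * (n : ℝ))) < n / Real.sin (Real.pi / (2 * n)) := by
  intro n hn
  have hn' : (0 : ℝ) < n := by exact_mod_cast hn
  have hn1 : (1 : ℝ) ≤ n := by exact_mod_cast hn
  have hpi := Real.pi_pos
  obtain ⟨τ, hτ0, hτ⟩ := tau_exists hn
  have hthr : IsThreshold n (Cc n τ) := by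
    refine ⟨Cc_pos n τ, ?_⟩
    intro c
    rw [rightRoots_iff hn, mem_T_iff hn hτ, not_lt]
  refine ⟨Cc n τ, hthr, ?_, ?_, ?_⟩
  · intro c₁ h
    apply le_antisymm
    · exact (h.2 _).1 ((hthr.2 _).2 le_rfl)
    · exact (hthr.2 _).1 ((h.2 _).2 le_rfl)
  · -- lower bound
    rcases le_or_gt 16 n with hbig | hsmall
    · have hτpos : 0 < τ := by
        rcases lt_or_eq_of_le hτ0 with h | h
        · exact h
        · exfalso
          rw [← h] at hτ
          have h0 : A n 0 = 0 := by simp [A]
          rw [h0] at hτ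
          have h16 : (16 : ℝ) ≤ n := by exact_mod_cast hbig
          nlinarith
      rw [Cc_eq hn hτpos]
      have h1 := lower_large hbig (t := 1 / τ) (by positivity) (m_eq hn hτpos hτ)
      rw [div_lt_iff₀ hτpos] at h1
      rw [div_lt_iff₀ hpi]
      have h2 : 2 * (n : ℝ) ^ 2 * 1 < 2 * (n : ℝ) ^ 2 *
          (Real.pi / (2 * n ^ 2) * Real.exp (Lg n (1 / τ)) * τ) :=
        mul_lt_mul_of_pos_left h1 (by positivity)
      have h3 : 2 * (n : ℝ) ^ 2 * (Real.pi / (2 * n ^ 2) * Real.exp (Lg n (1 / τ)) * τ) =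
          τ * Real.exp (Lg n (1 / τ)) * Real.pi := by
        field_simp
      linarith
    · have hgoal : (2 * (n : ℝ) ^ 2 / Real.pi) ^ (2 * n) < Cc n τ := by
        rcases Nat.lt_or_ge n 2 with h2 | h2
        · have hn1 : n = 1 := by omega
          subst hn1
          have h3 : Cc 1 0 ≤ Cc 1 τ := Cc_mono 1 le_rfl hτ0
          have h4 : Cc 1 0 = 3 / 4 := by
            unfold Cc x
            rw [prod_range_succ, prod_range_succ]
            simp only [range_zero, prod_empty, one_mul]
            norm_num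
          have h5 : (2 * ((1 : ℕ) : ℝ) ^ 2 / Real.pi) ^ (2 * 1) < 3 / 4 := by
            have h6 := Real.pi_gt_three
            have h7 : 2 * ((1 : ℕ) : ℝ) ^ 2 / Real.pi < 2 / 3 := by
              rw [div_lt_div_iff₀ hpi (by norm_num)]
              norm_num
              linarith
            have h8 : 0 < 2 * ((1 : ℕ) : ℝ) ^ 2 / Real.pi := by positivity
            have h9 : (2 * ((1 : ℕ) : ℝ) ^ 2 / Real.pi) ^ 2 < (2 / 3) ^ 2 :=
              pow_lt_pow_left₀ h7 h8.le (by norm_num)
            rw [mul_one]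
            linarith
          linarith
        · have hmem : n ∈ List.range' 2 14 := by
            rw [List.mem_range'_1]
            omega
          obtain ⟨h3, h4⟩ := small_facts hn (chk_all n hmem)
          have htab := tab_nonneg n hmem
          have h5 : (tab n : ℝ) / 2000000 ≤ τ := by
            rw [← hτ] at h3
            exact ((A_strictMono hn).lt_iff_lt.1 h3).le
          have h6 : (0 : ℝ) ≤ (tab n : ℝ) / 2000000 := by
            have : (0 : ℝ) ≤ (tab n : ℝ) := by exact_mod_cast htab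
            positivity
          exact lt_of_lt_of_le h4 (Cc_mono n h6 h5)
      have h1 : ((2 * (n : ℝ) ^ 2 / Real.pi) ^ (2 * n)) ^ (1 / (2 * (n : ℝ))) =
          2 * (n : ℝ) ^ 2 / Real.pi := by
        rw [show 1 / (2 * (n : ℝ)) = ((2 * n : ℕ) : ℝ)⁻¹ by push_cast; rw [one_div],
          Real.pow_rpow_inv_natCast (by positivity) (by omega)]
      rw [← h1]
      exact Real.rpow_lt_rpow (by positivity) hgoal (by positivity)
  · -- upper bound
    have hang0 : 0 < Real.pi / (2 * n) := by positivity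
    have hang1 : Real.pi / (2 * n) < Real.pi := by
      apply div_lt_self hpi
      linarith
    have hsin : 0 < Real.sin (Real.pi / (2 * n)) := Real.sin_pos_of_pos_of_lt_pi hang0 hang1
    rw [lt_div_iff₀ hsin]
    rcases lt_or_eq_of_le hτ0 with hτpos | hτz
    · rw [Cc_eq hn hτpos]
      have h1 := upper hn (t := 1 / τ) (by positivity)
      rw [m_eq hn hτpos hτ] at h1
      have h2 := mul_lt_mul_of_pos_left h1 hτpos
      have h3 : τ * ((n : ℝ) * (1 / τ)) = n := by field_simp
      rw [h3] at h2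
      linarith
    · -- then `n = 1`
      rw [← hτz] at hτ ⊢
      have h0 : A n 0 = 0 := by simp [A]
      rw [h0] at hτ
      have hn2 : (n : ℝ) = 1 := by
        have : ((n : ℝ) - 1) = 0 := by
          rcases mul_eq_zero.1 hτ.symm with h | h
          · exact h
          · exact absurd h hpi.ne'
        linarith
      have hn3 : n = 1 := by exact_mod_cast hn2
      subst hn3
      have h4 : Cc 1 0 = 3 / 4 := by
        unfold Cc x
        rw [prod_range_succ, prod_range_succ]
        simp only [range_zero, prod_empty, one_mul]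
        norm_num
      rw [h4]
      have h5 : Real.sin (Real.pi / (2 * ((1 : ℕ) : ℝ))) = 1 := by
        push_cast
        rw [mul_one, Real.sin_pi_div_two]
      rw [h5, mul_one]
      have h6 : ((3 : ℝ) / 4) ^ (1 / (2 * ((1 : ℕ) : ℝ))) < 1 :=
        Real.rpow_lt_one (by norm_num) (by norm_num) (by norm_num)
      simpa using h6

end Pool.Agent.Results.MP_74ce82_an.BothBounds
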